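import Mathlib
import Pool.Agent.H24.PcgDefs
import Pool.Agent.H24.Pcg1

namespace Pool.Agent.Results.MP_488b30_co.No
open Pool.Agent.H24.PcgDefs

theorem result : IsPCG ex ∧
    ¬ ∃ G1 G2 : SimpleGraph (Fin 3 × (Fin 3 ⊕ Fin 9)), IsPCG G1 ∧ IsPCG G2 ∧ exᶜ = G1 ⊓ G2 :=
  ⟨Pool.Agent.H24.Pcg1.ex_pcg, Pool.Agent.H24.Pcg1.not_and⟩

end Pool.Agent.Results.MP_488b30_co.No
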